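import Pool.Agent.R639.PM.Key

/-!
# All identities of mutations of perm algebras follow from the six known ones

`F` is a field of characteristic zero. Every multilinear identity which holds in every mutation
`P_{p,q}` (with product `⟨x, y⟩ = (xp)y - (yq)x`) of every perm algebra `P` over `F` lies in the
T-ideal generated by `f`, `WA`, `H̄`, `Ī`, `g₁`, `g₂`.
-/

set_option autoImplicit false

namespace Pool.Agent.Results.MP_e9cf85_al.PermMutationIdentities

open Pool.Agent.R639.PM

noncomputable section

universe u

/-- the free nonassociative algebra on the variables `x 0, x 1, …` -/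
abbrev Free (F : Type u) [Field F] := FreeNonUnitalNonAssocAlgebra F ℕ

section

variable (F : Type u) [Field F]

/-- the variables -/
abbrev x (i : ℕ) : Free F := FreeNonUnitalNonAssocAlgebra.of F i

/-- A T-ideal of the free algebra: a two-sided ideal closed under all substitutions. -/
def IsTIdeal (I : Submodule F (Free F)) : Prop :=
  (∀ u ∈ I, ∀ w : Free F, u * w ∈ I ∧ w * u ∈ I) ∧
    ∀ φ : Free F →ₙₐ[F] Free F, ∀ u ∈ I, φ u ∈ I

/-- `g` lies in the T-ideal generated by `S`. -/
def IsConsequence (S : Set (Free F)) (g : Free F) : Prop :=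
  ∀ I : Submodule F (Free F), IsTIdeal F I → S ⊆ I → g ∈ I

/-- the six identities `f, WA, H̄, Ī, g₁, g₂` -/
def six : Set (Free F) :=
  {pf (x F 0) (x F 1) (x F 2), pWA (x F 0) (x F 1) (x F 2), pH (x F 0) (x F 1) (x F 2) (x F 3),
    pI (x F 0) (x F 1) (x F 2) (x F 3), pg1 (x F 0) (x F 1) (x F 2) (x F 3),
    pg2 (x F 0) (x F 1) (x F 2) (x F 3)}

/-- The multilinear polynomials in the variables `x i`, `i ∈ s`: the linear combinations of the
monomials in which each `x i` with `i ∈ s`, and no other variable, occurs exactly once. -/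
def Multilinear (s : Finset ℕ) : Submodule F (Free F) :=
  Submodule.span F {m | ∃ t : FreeMagma ℕ, letters t = s.val ∧ m = word (x F) t}

/-- `g` vanishes identically in every mutation of every perm algebra over `F`. -/
def HoldsInMutations (g : Free F) : Prop :=
  ∀ (P : Type u) [NonUnitalRing P] [Module F P] [IsScalarTower F P P] [SMulCommClass F P P],
    (∀ a b c : P, a * b * c = b * a * c) → ∀ (p q : P) (v : ℕ → Mut P p q),
      FreeNonUnitalNonAssocAlgebra.lift F v g = 0

end

section

variable {F : Type u} [Field F] {A : Type u} [NonUnitalNonAssocRing A] [Module F A]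
  [IsScalarTower F A A] [SMulCommClass F A A]

theorem lift_word (v : ℕ → A) (t : FreeMagma ℕ) :
    FreeNonUnitalNonAssocAlgebra.lift F v (word (x F) t) = word v t := by
  induction t with
  | ih1 i => exact FreeNonUnitalNonAssocAlgebra.lift_of_apply F v i
  | ih2 a b ha hb =>
    show FreeNonUnitalNonAssocAlgebra.lift F v (word (x F) a * word (x F) b) =
      word v a * word v b
    rw [map_mul, ha, hb]

theorem torsion [CharZero F] (n : ℕ) (a : A) (hn : n ≠ 0) (h : n • a = 0) : a = 0 := by
  rw [← Nat.cast_smul_eq_nsmul F] at h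
  rcases smul_eq_zero.1 h with h | h
  · exact absurd (Nat.cast_eq_zero.1 h) hn
  · exact h

theorem sat_prod (S : Sat A) {B : Type u} [NonUnitalNonAssocRing B] (T : Sat B) :
    Sat (A × B) where
  f := fun x y z => Prod.ext (S.f x.1 y.1 z.1) (T.f x.2 y.2 z.2)
  wa := fun x y z => Prod.ext (S.wa x.1 y.1 z.1) (T.wa x.2 y.2 z.2)
  h := fun x y z w => Prod.ext (S.h x.1 y.1 z.1 w.1) (T.h x.2 y.2 z.2 w.2)
  i := fun x y z w => Prod.ext (S.i x.1 y.1 z.1 w.1) (T.i x.2 y.2 z.2 w.2)
  g1 := fun x y z w => Prod.ext (S.g1 x.1 y.1 z.1 w.1) (T.g1 x.2 y.2 z.2 w.2)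
  g2 := fun x y z w => Prod.ext (S.g2 x.1 y.1 z.1 w.1) (T.g2 x.2 y.2 z.2 w.2)

/-- a multilinear identity of the model holds in every algebra with the six identities -/
theorem key [CharZero F] (S : Sat A) (v : ℕ → A) (s : Finset ℕ) (g : Free F)
    (hg : g ∈ Multilinear F s) (hM : FreeNonUnitalNonAssocAlgebra.lift F (xg F) g = 0) :
    FreeNonUnitalNonAssocAlgebra.lift F v g = 0 := by
  have ST : SatT (A × MM F) :=
    { sat_prod S (sat_MM F) with
      tf := fun n a hn h => torsion (F := F) n a hn h }
  by_cases hex : ∃ t0, letters t0 = s.val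
  · obtain ⟨t0, ht0⟩ := hex
    -- the value in the product algebra
    have key1 : ∀ g ∈ Multilinear F s, ∃ (c : F) (u : A × MM F), u ∈ N F (vp F v) s.val ∧
        (FreeNonUnitalNonAssocAlgebra.lift F v g, FreeNonUnitalNonAssocAlgebra.lift F (xg F) g) =
          c • word (vp F v) t0 + u := by
      intro g hg
      induction hg using Submodule.span_induction with
      | mem g hg =>
        obtain ⟨t, ht, rfl⟩ := hg
        refine ⟨1, word (vp F v) t - word (vp F v) t0, ?_, ?_⟩
        · rw [← ht]
          exact congr_words F (vp F v) ST _ t t0 rfl (ht.trans ht0.symm)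
        · rw [one_smul, add_sub_cancel, lift_word, lift_word]
          have : ∀ t : FreeMagma ℕ, (word v t, word (xg F) t) = word (vp F v) t := by
            intro t
            induction t with
            | ih1 i => rfl
            | ih2 a b ha hb =>
              show (word v a * word v b, word (xg F) a * word (xg F) b) =
                word (vp F v) a * word (vp F v) b
              rw [← ha, ← hb]; rfl
          exact this t
      | zero => exact ⟨0, 0, zero_mem _, by rw [map_zero, map_zero, zero_smul, add_zero]; rfl⟩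
      | add g g' _ _ h1 h2 =>
        obtain ⟨c, u, hu, h⟩ := h1
        obtain ⟨c', u', hu', h'⟩ := h2
        refine ⟨c + c', u + u', add_mem hu hu', ?_⟩
        rw [map_add, map_add, ← Prod.mk_add_mk, h, h', add_smul]
        abel
      | smul a g _ h =>
        obtain ⟨c, u, hu, h⟩ := h
        refine ⟨a * c, a • u, Submodule.smul_mem _ _ hu, ?_⟩
        rw [map_smul, map_smul, ← Prod.smul_mk, h, smul_add, mul_smul]
    obtain ⟨c, u, hu, h⟩ := key1 g hg
    have h2 := congrArg Prod.snd h
    rw [hM] at h2
    have h3 : ∀ t : FreeMagma ℕ, (word (vp F v) t).2 = word (xg F) t := by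
      intro t
      induction t with
      | ih1 i => rfl
      | ih2 a b ha hb =>
        show (word (vp F v) a).2 * (word (vp F v) b).2 = word (xg F) a * word (xg F) b
        rw [ha, hb]
    have h4 : (0 : MM F) = c • word (xg F) t0 + u.2 := by rw [← h3]; exact h2
    have h5 := congrArg (f1 F) h4
    rw [f1_add, f1_smul, f1_N F v _ u hu, add_zero, f1_zero] at h5
    have hc : c = 0 := by
      rcases smul_eq_zero.1 h5.symm with h | h
      · exact h
      · exact absurd h (f1_word F t0)
    rw [hc, zero_smul, zero_add] at h4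
    have hu0 := N_inj F v ST s u hu h4.symm
    rw [hc, hu0, zero_smul, add_zero] at h
    exact congrArg Prod.fst h
  · have hemp : {m | ∃ t : FreeMagma ℕ, letters t = s.val ∧ m = word (x F) t} =
        (∅ : Set (Free F)) := by
      ext m
      constructor
      · rintro ⟨t, ht, _⟩; exact absurd ⟨t, ht⟩ hex
      · intro h; exact absurd h (by simp)
    unfold Multilinear at hg
    rw [hemp, Submodule.span_empty, Submodule.mem_bot] at hg
    rw [hg, map_zero]

end

/-! ### The quotient by a T-ideal -/

section

variable {F : Type u} [Field F] (I : Submodule F (Free F))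

/-- the quotient -/
def Q : Type u := Free F ⧸ I

instance : AddCommGroup (Q I) := inferInstanceAs (AddCommGroup (Free F ⧸ I))
instance : Module F (Q I) := inferInstanceAs (Module F (Free F ⧸ I))

/-- the class of an element -/
def mk (a : Free F) : Q I := Submodule.Quotient.mk a

theorem mk_surj (a : Q I) : ∃ b, mk I b = a := Submodule.Quotient.mk_surjective I a

theorem mk_eq (a b : Free F) : mk I a = mk I b ↔ a - b ∈ I := Submodule.Quotient.eq I

theorem mk_add (a b : Free F) : mk I (a + b) = mk I a + mk I b := rfl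
theorem mk_sub (a b : Free F) : mk I (a - b) = mk I a - mk I b := rfl
theorem mk_smul (c : F) (a : Free F) : mk I (c • a) = c • mk I a := rfl
theorem mk_zero : mk I 0 = 0 := rfl

/-- a representative -/
def rep (a : Q I) : Free F := Classical.choose (mk_surj I a)

theorem mk_rep (a : Q I) : mk I (rep I a) = a := Classical.choose_spec (mk_surj I a)

instance : Mul (Q I) := ⟨fun a b => mk I (rep I a * rep I b)⟩

variable (hI : IsTIdeal F I)
include hI

theorem mk_mul (a b : Free F) : mk I (a * b) = mk I a * mk I b := by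
  show mk I (a * b) = mk I (rep I (mk I a) * rep I (mk I b))
  rw [mk_eq]
  have h1 : a - rep I (mk I a) ∈ I := (mk_eq I _ _).1 (mk_rep I _).symm
  have h2 : b - rep I (mk I b) ∈ I := (mk_eq I _ _).1 (mk_rep I _).symm
  have e : a * b - rep I (mk I a) * rep I (mk I b) =
      (a - rep I (mk I a)) * b + rep I (mk I a) * (b - rep I (mk I b)) := by
    rw [sub_mul, mul_sub]; abel
  rw [e]
  exact add_mem (hI.1 _ h1 _).1 (hI.1 _ h2 _).2

/-- the ring structure of the quotient -/
@[reducible] def qRing : NonUnitalNonAssocRing (Q I) :=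
  { (inferInstance : AddCommGroup (Q I)), (inferInstance : Mul (Q I)) with
    left_distrib := fun a b c => by
      obtain ⟨a, rfl⟩ := mk_surj I a
      obtain ⟨b, rfl⟩ := mk_surj I b
      obtain ⟨c, rfl⟩ := mk_surj I c
      show mk I a * (mk I b + mk I c) = mk I a * mk I b + mk I a * mk I c
      rw [← mk_add, ← mk_mul I hI, ← mk_mul I hI, ← mk_mul I hI, mul_add, mk_add]
    right_distrib := fun a b c => by
      obtain ⟨a, rfl⟩ := mk_surj I a
      obtain ⟨b, rfl⟩ := mk_surj I b
      obtain ⟨c, rfl⟩ := mk_surj I c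
      show (mk I a + mk I b) * mk I c = mk I a * mk I c + mk I b * mk I c
      rw [← mk_add, ← mk_mul I hI, ← mk_mul I hI, ← mk_mul I hI, add_mul, mk_add]
    zero_mul := fun a => by
      obtain ⟨a, rfl⟩ := mk_surj I a
      show mk I 0 * mk I a = mk I 0
      rw [← mk_mul I hI, zero_mul]
    mul_zero := fun a => by
      obtain ⟨a, rfl⟩ := mk_surj I a
      show mk I a * mk I 0 = mk I 0
      rw [← mk_mul I hI, mul_zero] }

end

/-- **Every multilinear identity of all mutations of all perm algebras over a field of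
characteristic zero is a consequence of the six identities.** -/
theorem result {F : Type u} [Field F] [CharZero F] (s : Finset ℕ) (g : Free F)
    (hg : g ∈ Multilinear F s) (h : HoldsInMutations F g) : IsConsequence F (six F) g := by
  intro I hI hS
  letI := qRing I hI
  haveI : IsScalarTower F (Q I) (Q I) := ⟨fun c a b => by
    obtain ⟨a, rfl⟩ := mk_surj I a
    obtain ⟨b, rfl⟩ := mk_surj I b
    show (c • mk I a) * mk I b = c • (mk I a * mk I b)
    rw [← mk_smul, ← mk_mul I hI, ← mk_mul I hI, smul_mul_assoc, mk_smul]⟩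
  haveI : SMulCommClass F (Q I) (Q I) := ⟨fun c a b => by
    obtain ⟨a, rfl⟩ := mk_surj I a
    obtain ⟨b, rfl⟩ := mk_surj I b
    show c • (mk I a * mk I b) = mk I a * (c • mk I b)
    rw [← mk_smul, ← mk_mul I hI, ← mk_mul I hI, mul_smul_comm, mk_smul]⟩
  -- substitutions
  let φ : Free F → Free F → Free F → Free F → (Free F →ₙₐ[F] Free F) := fun a b c d =>
    FreeNonUnitalNonAssocAlgebra.lift F (fun i => if i = 0 then a else if i = 1 then b else
      if i = 2 then c else d)
  have φ0 : ∀ a b c d, φ a b c d (x F 0) = a := fun a b c d =>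
    FreeNonUnitalNonAssocAlgebra.lift_of_apply F _ 0
  have φ1 : ∀ a b c d, φ a b c d (x F 1) = b := fun a b c d =>
    FreeNonUnitalNonAssocAlgebra.lift_of_apply F _ 1
  have φ2 : ∀ a b c d, φ a b c d (x F 2) = c := fun a b c d =>
    FreeNonUnitalNonAssocAlgebra.lift_of_apply F _ 2
  have φ3 : ∀ a b c d, φ a b c d (x F 3) = d := fun a b c d =>
    FreeNonUnitalNonAssocAlgebra.lift_of_apply F _ 3
  have mem0 : ∀ w, w ∈ I → mk I w = 0 := fun w hw => by
    rw [← mk_zero, mk_eq, sub_zero]; exact hw
  have S : Sat (Q I) :=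
    { f := fun a b c => by
        obtain ⟨a, rfl⟩ := mk_surj I a
        obtain ⟨b, rfl⟩ := mk_surj I b
        obtain ⟨c, rfl⟩ := mk_surj I c
        have h1 := hI.2 (φ a b c 0) _ (hS (show pf (x F 0) (x F 1) (x F 2) ∈ six F by
          simp [six]))
        have h2 : φ a b c 0 (pf (x F 0) (x F 1) (x F 2)) = pf a b c := by
          simp only [pf, map_add, map_sub, map_mul, φ0, φ1, φ2]
        rw [h2] at h1
        rw [← mem0 _ h1]
        simp only [pf, mk_add, mk_sub, mk_mul I hI]
      wa := fun a b c => by
        obtain ⟨a, rfl⟩ := mk_surj I a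
        obtain ⟨b, rfl⟩ := mk_surj I b
        obtain ⟨c, rfl⟩ := mk_surj I c
        have h1 := hI.2 (φ a b c 0) _ (hS (show pWA (x F 0) (x F 1) (x F 2) ∈ six F by
          simp [six]))
        have h2 : φ a b c 0 (pWA (x F 0) (x F 1) (x F 2)) = pWA a b c := by
          simp only [pWA, as, map_add, map_sub, map_mul, φ0, φ1, φ2]
        rw [h2] at h1
        rw [← mem0 _ h1]
        simp only [pWA, as, mk_add, mk_sub, mk_mul I hI]
      h := fun a b c d => by
        obtain ⟨a, rfl⟩ := mk_surj I a
        obtain ⟨b, rfl⟩ := mk_surj I b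
        obtain ⟨c, rfl⟩ := mk_surj I c
        obtain ⟨d, rfl⟩ := mk_surj I d
        have h1 := hI.2 (φ a b c d) _ (hS (show pH (x F 0) (x F 1) (x F 2) (x F 3) ∈ six F by
          simp [six]))
        have h2 : φ a b c d (pH (x F 0) (x F 1) (x F 2) (x F 3)) = pH a b c d := by
          simp only [pH, hs, map_add, map_sub, map_mul, φ0, φ1, φ2, φ3]
        rw [h2] at h1
        rw [← mem0 _ h1]
        simp only [pH, hs, mk_add, mk_sub, mk_mul I hI]
      i := fun a b c d => by
        obtain ⟨a, rfl⟩ := mk_surj I a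
        obtain ⟨b, rfl⟩ := mk_surj I b
        obtain ⟨c, rfl⟩ := mk_surj I c
        obtain ⟨d, rfl⟩ := mk_surj I d
        have h1 := hI.2 (φ a b c d) _ (hS (show pI (x F 0) (x F 1) (x F 2) (x F 3) ∈ six F by
          simp [six]))
        have h2 : φ a b c d (pI (x F 0) (x F 1) (x F 2) (x F 3)) = pI a b c d := by
          simp only [pI, as, dot, map_add, map_sub, map_mul, φ0, φ1, φ2, φ3]
        rw [h2] at h1
        rw [← mem0 _ h1]
        simp only [pI, as, dot, mk_add, mk_sub, mk_mul I hI]
      g1 := fun a b c d => by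
        obtain ⟨a, rfl⟩ := mk_surj I a
        obtain ⟨b, rfl⟩ := mk_surj I b
        obtain ⟨c, rfl⟩ := mk_surj I c
        obtain ⟨d, rfl⟩ := mk_surj I d
        have h1 := hI.2 (φ a b c d) _ (hS (show pg1 (x F 0) (x F 1) (x F 2) (x F 3) ∈ six F by
          simp [six]))
        have h2 : φ a b c d (pg1 (x F 0) (x F 1) (x F 2) (x F 3)) = pg1 a b c d := by
          simp only [pg1, map_add, map_sub, map_mul, φ0, φ1, φ2, φ3]
        rw [h2] at h1
        rw [← mem0 _ h1]
        simp only [pg1, mk_add, mk_sub, mk_mul I hI]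
      g2 := fun a b c d => by
        obtain ⟨a, rfl⟩ := mk_surj I a
        obtain ⟨b, rfl⟩ := mk_surj I b
        obtain ⟨c, rfl⟩ := mk_surj I c
        obtain ⟨d, rfl⟩ := mk_surj I d
        have h1 := hI.2 (φ a b c d) _ (hS (show pg2 (x F 0) (x F 1) (x F 2) (x F 3) ∈ six F by
          simp [six]))
        have h2 : φ a b c d (pg2 (x F 0) (x F 1) (x F 2) (x F 3)) = pg2 a b c d := by
          simp only [pg2, map_add, map_sub, map_mul, φ0, φ1, φ2, φ3]
        rw [h2] at h1
        rw [← mem0 _ h1]
        simp only [pg2, mk_add, mk_sub, mk_mul I hI] }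
  have hM : FreeNonUnitalNonAssocAlgebra.lift F (xg F) g = 0 :=
    h (PP F) (pp_perm F) (pe F) (qe F) (xg F)
  have h1 := key S (fun i => mk I (x F i)) s g hg hM
  have hword : ∀ t : FreeMagma ℕ, word (fun i => mk I (x F i)) t = mk I (word (x F) t) := by
    intro t
    induction t with
    | ih1 i => rfl
    | ih2 a b ha hb =>
      show word (fun i => mk I (x F i)) a * word (fun i => mk I (x F i)) b =
        mk I (word (x F) a * word (x F) b)
      rw [ha, hb, mk_mul I hI]
  have h2 : ∀ g ∈ Multilinear F s,
      FreeNonUnitalNonAssocAlgebra.lift F (fun i => mk I (x F i)) g = mk I g := by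
    intro g hg
    induction hg using Submodule.span_induction with
    | mem g hg =>
      obtain ⟨t, _, rfl⟩ := hg
      rw [lift_word]
      exact hword t
    | zero => rw [map_zero]; rfl
    | add g g' _ _ h1 h2 => rw [map_add, h1, h2, mk_add]
    | smul c g _ h => rw [map_smul, h, mk_smul]
  rw [h2 g hg, ← mk_zero, mk_eq, sub_zero] at h1
  exact h1

end

end Pool.Agent.Results.MP_e9cf85_al.PermMutationIdentities
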